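import Pool.Agent.Lib_helper71.LSPM2.DEF3
import Pool.Agent.Lib_helper41.LSP2.Defs2

/-! LSP2, part M2, block VTA. -/

namespace Pool.Agent.LSP

open Pool.Agent.LEV Pool.Agent.LVB Pool.Agent.KSL
open Pool.Agent.FG61 (mu phi cc ff AA Lam)

/-! ### sums over multiples -/

theorem vta_C {B B' p q : ℕ} {G : ℕ → ℝ} (hG : ∀ d, G d ≠ 0 → 1 ≤ d ∧ d ≤ B) (hp : 1 ≤ p)
    (hB : B ≤ B') :
    ∑ d ∈ Finset.Icc 1 B', (if q ∣ d then G (p * d) else 0) = wd B G (p * q) := by
  unfold wd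
  refine Finset.sum_bij_ne_zero (fun d _ _ => p * d) ?_ ?_ ?_ ?_
  · intro d hd h0
    have h1 : G (p * d) ≠ 0 := by
      intro h
      rw [h] at h0
      simp at h0
    rw [Finset.mem_Icc]
    exact hG _ h1
  · intro d _ _ d' _ _ h
    exact Nat.eq_of_mul_eq_mul_left hp h
  · intro D hD h0
    have hd : p * q ∣ D := by
      by_contra h
      rw [if_neg h] at h0
      exact h0 rfl
    rw [if_pos hd] at h0
    obtain ⟨c, rfl⟩ := hd
    rw [Finset.mem_Icc] at hD
    have hc : 1 ≤ q * c := by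
      rw [Nat.one_le_iff_ne_zero]
      intro h
      rw [mul_assoc, h, mul_zero] at hD
      omega
    refine ⟨q * c, ?_, ?_, by ring⟩
    · rw [Finset.mem_Icc]
      refine ⟨hc, ?_⟩
      have h2 : q * c ≤ p * (q * c) := Nat.le_mul_of_pos_left _ hp
      have h3 : p * (q * c) = p * q * c := by ring
      omega
    · rw [if_pos (Dvd.intro _ rfl), ← mul_assoc]
      exact h0
  · intro d hd h0
    have hq : q ∣ d := by
      by_contra h
      rw [if_neg h] at h0
      exact h0 rfl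
    rw [if_pos hq, if_pos (Nat.mul_dvd_mul_left p hq)]

theorem vta_B0 {B B' p q : ℕ} {G : ℕ → ℝ} (hG : ∀ d, G d ≠ 0 → 1 ≤ d ∧ d ≤ B) (hp : 1 ≤ p)
    (hB : p * B ≤ B') :
    ∑ d ∈ Finset.Icc 1 B', (if q ∣ d ∧ p ∣ d then G (d / p) else 0) =
      ∑ d ∈ Finset.Icc 1 B, (if q ∣ p * d then G d else 0) := by
  symm
  refine Finset.sum_bij_ne_zero (fun d _ _ => p * d) ?_ ?_ ?_ ?_
  · intro d hd h0
    rw [Finset.mem_Icc] at hd ⊢
    exact ⟨Nat.mul_pos hp hd.1, (Nat.mul_le_mul_left p hd.2).trans hB⟩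
  · intro d _ _ d' _ _ h
    exact Nat.eq_of_mul_eq_mul_left hp h
  · intro D hD h0
    have hd : q ∣ D ∧ p ∣ D := by
      by_contra h
      rw [if_neg h] at h0
      exact h0 rfl
    rw [if_pos hd] at h0
    obtain ⟨hq, c, rfl⟩ := hd
    rw [Nat.mul_div_cancel_left c (by omega)] at h0
    refine ⟨c, ?_, ?_, rfl⟩
    · rw [Finset.mem_Icc]
      exact hG _ h0
    · rw [if_pos hq]
      exact h0
  · intro d hd h0
    have hq : q ∣ p * d := by
      by_contra h
      rw [if_neg h] at h0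
      exact h0 rfl
    rw [if_pos hq, if_pos ⟨hq, Dvd.intro _ rfl⟩, Nat.mul_div_cancel_left d (by omega)]

theorem vta_B {B B' p q : ℕ} {G : ℕ → ℝ} (hG : ∀ d, G d ≠ 0 → 1 ≤ d ∧ d ≤ B) (hp : p.Prime)
    (hB : p * B ≤ B') :
    ∑ d ∈ Finset.Icc 1 B', (if q ∣ d ∧ p ∣ d then G (d / p) else 0) =
      if p ∣ q then wd B G (q / p) else wd B G q := by
  rw [vta_B0 hG hp.one_le hB]
  split_ifs with h
  · obtain ⟨c, rfl⟩ := h
    rw [Nat.mul_div_cancel_left c hp.pos]
    unfold wd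
    refine Finset.sum_congr rfl fun d _ => ?_
    by_cases h1 : c ∣ d
    · rw [if_pos h1, if_pos (Nat.mul_dvd_mul_left p h1)]
    · rw [if_neg h1, if_neg]
      intro h2
      exact h1 (Nat.dvd_of_mul_dvd_mul_left hp.pos h2)
  · unfold wd
    refine Finset.sum_congr rfl fun d _ => ?_
    have hc : Nat.Coprime q p := ((Nat.Prime.coprime_iff_not_dvd hp).2 h).symm
    by_cases h1 : q ∣ d
    · rw [if_pos h1, if_pos (Dvd.dvd.mul_left h1 p)]
    · rw [if_neg h1, if_neg]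
      intro h2
      exact h1 (hc.dvd_of_dvd_mul_left h2)

theorem vta_wd_mono {B B' q : ℕ} {G : ℕ → ℝ} (hG : ∀ d, G d ≠ 0 → 1 ≤ d ∧ d ≤ B)
    (hB : B ≤ B') : wd B' G q = wd B G q := by
  unfold wd
  symm
  refine Finset.sum_subset (Finset.Icc_subset_Icc le_rfl hB) ?_
  intro d hd hd'
  rw [Finset.mem_Icc] at hd hd'
  have : G d = 0 := by
    by_contra h
    exact hd' ⟨hd.1, (hG d h).2⟩
  rw [this, ite_self]

theorem vta_N {B B' p q : ℕ} {G : ℕ → ℝ} (hG : ∀ d, G d ≠ 0 → 1 ≤ d ∧ d ≤ B) (hp : p.Prime)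
    (hB : p * B ≤ B') :
    ∑ d ∈ Finset.Icc 1 B', (if q ∣ d ∧ ¬ p ∣ d then G d else 0) =
      if p ∣ q then 0 else wd B G q - wd B G (p * q) := by
  split_ifs with h
  · refine Finset.sum_eq_zero fun d _ => ?_
    rw [if_neg]
    rintro ⟨h1, h2⟩
    exact h2 (h.trans h1)
  · have hBB : B ≤ B' := (Nat.le_mul_of_pos_left B hp.pos).trans hB
    rw [← vta_wd_mono (q := q) hG hBB, ← vta_wd_mono (q := p * q) hG hBB]
    unfold wd
    rw [← Finset.sum_sub_distrib]
    refine Finset.sum_congr rfl fun d _ => ?_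
    have hc : Nat.Coprime p q := (Nat.Prime.coprime_iff_not_dvd hp).2 h
    by_cases h1 : q ∣ d
    · by_cases h2 : p ∣ d
      · rw [if_neg (fun h3 => h3.2 h2), if_pos h1, if_pos (hc.mul_dvd_of_dvd_of_dvd h2 h1),
          sub_self]
      · rw [if_pos ⟨h1, h2⟩, if_pos h1, if_neg (fun h3 => h2 ((Dvd.intro _ rfl).trans h3)),
          sub_zero]
    · rw [if_neg (fun h3 => h1 h3.1), if_neg h1,
        if_neg (fun h3 => h1 ((Dvd.intro_left _ rfl).trans h3)), sub_zero]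

theorem vta_gcd {d p : ℕ} (hp : p.Prime) (h : p ∣ d) : Nat.gcd d p = p :=
  Nat.gcd_eq_right h

theorem vta_gcd1 {d p : ℕ} (hp : p.Prime) (h : ¬ p ∣ d) : Nat.gcd d p = 1 := by
  rw [Nat.gcd_comm]
  exact (Nat.Prime.coprime_iff_not_dvd hp).2 h

theorem vta_A {B B' p q : ℕ} {G : ℕ → ℝ} (hG : ∀ d, G d ≠ 0 → 1 ≤ d ∧ d ≤ B) (hp : p.Prime)
    (hB : p * B ≤ B') :
    ∑ d ∈ Finset.Icc 1 B', (if q ∣ d then G (d / Nat.gcd d p) else 0) =
      if p ∣ q then wd B G (q / p) else 2 * wd B G q - wd B G (p * q) := by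
  have h1 : ∑ d ∈ Finset.Icc 1 B', (if q ∣ d then G (d / Nat.gcd d p) else 0) =
      ∑ d ∈ Finset.Icc 1 B', (if q ∣ d ∧ p ∣ d then G (d / p) else 0) +
      ∑ d ∈ Finset.Icc 1 B', (if q ∣ d ∧ ¬ p ∣ d then G d else 0) := by
    rw [← Finset.sum_add_distrib]
    refine Finset.sum_congr rfl fun d _ => ?_
    by_cases h2 : q ∣ d
    · by_cases h3 : p ∣ d
      · rw [if_pos h2, if_pos ⟨h2, h3⟩, if_neg (fun h => h.2 h3), vta_gcd hp h3, add_zero]
      · rw [if_pos h2, if_neg (fun h => h3 h.2), if_pos ⟨h2, h3⟩, vta_gcd1 hp h3, zero_add,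
          Nat.div_one]
    · rw [if_neg h2, if_neg (fun h => h2 h.1), if_neg (fun h => h2 h.1), add_zero]
  rw [h1, vta_B hG hp hB, vta_N hG hp hB]
  split_ifs
  · rw [add_zero]
  · ring

theorem vta_supp {z B : ℕ} {V : ℕ → ℝ} (hV : RVec z B V) (d : ℕ) (h : V d ≠ 0) :
    1 ≤ d ∧ d ≤ B := (hV d h).2

theorem vta_supp_lg {z B : ℕ} {V : ℕ → ℝ} (hV : RVec z B V) (d : ℕ) (h : lg V d ≠ 0) :
    1 ≤ d ∧ d ≤ B := by
  refine (hV d fun h0 => h ?_).2
  unfold lg
  rw [h0, zero_mul]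

/-- the weights of `T_p y` (for `1 ≤ q`) -/
theorem wd_VT_pr {z B B' p : ℕ} {V : ℕ → ℝ} (hV : RVec z B V) (hp : p.Prime) (hB : p * B ≤ B')
    {q : ℕ} (hq : 1 ≤ q) : wd B' (VT p V) q =
      if p ∣ q then wd B V (q / p) / p + wd B V (p * q)
      else 2 / p * wd B V q + (1 - 1 / p) * wd B V (p * q) := by
  have hBB : B ≤ B' := (Nat.le_mul_of_pos_left B hp.pos).trans hB
  have h1 : wd B' (VT p V) q =
      (∑ d ∈ Finset.Icc 1 B', (if q ∣ d then V (d / Nat.gcd d p) else 0)) / p +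
      ∑ d ∈ Finset.Icc 1 B', (if q ∣ d then V (p * d) else 0) := by
    unfold wd VT
    rw [Finset.sum_div, ← Finset.sum_add_distrib]
    refine Finset.sum_congr rfl fun d _ => ?_
    split_ifs
    · rfl
    · simp
  rw [h1, vta_A (vta_supp hV) hp hB, vta_C (vta_supp hV) hp.one_le hBB]
  split_ifs
  · rfl
  · ring

/-- the weights of `T_p y` with a logarithm -/
theorem wd_lg_VT_pr {z B B' p : ℕ} {V : ℕ → ℝ} (hV : RVec z B V) (hp : p.Prime)
    (hB : p * B ≤ B') {q : ℕ} (hq : 1 ≤ q) : wd B' (lg (VT p V)) q =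
      if p ∣ q then (wd B (lg V) (q / p) + Real.log p * wd B V (q / p)) / p +
        (wd B (lg V) (p * q) - Real.log p * wd B V (p * q))
      else 2 / p * wd B (lg V) q + Real.log p / p * wd B V q +
        (1 - 1 / p) * wd B (lg V) (p * q) - Real.log p * wd B V (p * q) := by
  have hBB : B ≤ B' := (Nat.le_mul_of_pos_left B hp.pos).trans hB
  have hp0 : (p : ℝ) ≠ 0 := by exact_mod_cast hp.ne_zero
  have h1 : wd B' (lg (VT p V)) q =
      ((∑ d ∈ Finset.Icc 1 B', (if q ∣ d then lg V (d / Nat.gcd d p) else 0)) +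
        Real.log p * ∑ d ∈ Finset.Icc 1 B', (if q ∣ d ∧ p ∣ d then V (d / p) else 0)) / p +
      (∑ d ∈ Finset.Icc 1 B', (if q ∣ d then lg V (p * d) else 0) -
        Real.log p * ∑ d ∈ Finset.Icc 1 B', (if q ∣ d then V (p * d) else 0)) := by
    unfold wd
    rw [Finset.mul_sum, Finset.mul_sum, ← Finset.sum_add_distrib, Finset.sum_div,
      ← Finset.sum_sub_distrib, ← Finset.sum_add_distrib]
    refine Finset.sum_congr rfl fun d hd => ?_
    rw [Finset.mem_Icc] at hd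
    have hd0 : (d : ℝ) ≠ 0 := by
      have : d ≠ 0 := by omega
      exact_mod_cast this
    by_cases h2 : q ∣ d
    · have e1 : lg V (p * d) = V (p * d) * (Real.log p + Real.log d) := by
        unfold lg
        rw [Nat.cast_mul, Real.log_mul hp0 hd0]
      by_cases h3 : p ∣ d
      · rw [if_pos h2, if_pos h2, if_pos ⟨h2, h3⟩, if_pos h2, if_pos h2, vta_gcd hp h3, e1]
        obtain ⟨c, rfl⟩ := h3
        have hc : c ≠ 0 := by
          rintro rfl
          omega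
        have hc0 : (c : ℝ) ≠ 0 := by exact_mod_cast hc
        unfold lg VT
        rw [vta_gcd hp (Dvd.intro _ rfl), Nat.mul_div_cancel_left c hp.pos, Nat.cast_mul,
          Real.log_mul hp0 hc0]
        ring
      · rw [if_pos h2, if_pos h2, if_neg (fun h => h3 h.2), if_pos h2, if_pos h2,
          vta_gcd1 hp h3, e1]
        unfold lg VT
        rw [vta_gcd1 hp h3, Nat.div_one]
        ring
    · rw [if_neg h2, if_neg h2, if_neg (fun h => h2 h.1), if_neg h2, if_neg h2]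
      simp
  rw [h1, vta_A (vta_supp_lg hV) hp hB, vta_B (vta_supp hV) hp hB,
    vta_C (vta_supp_lg hV) hp.one_le hBB, vta_C (vta_supp hV) hp.one_le hBB]
  split_ifs
  · rfl
  · ring

/-! ### supports -/

theorem RVec_VT_pr {z B B' p : ℕ} {V : ℕ → ℝ} (hV : RVec z B V) (hp : p.Prime) (hz : z < p)
    (hB : p * B ≤ B') : RVec z B' (VT p V) := by
  have hBB : B ≤ B' := (Nat.le_mul_of_pos_left B hp.pos).trans hB
  intro d hd
  have h0 : V (d / Nat.gcd d p) ≠ 0 ∨ V (p * d) ≠ 0 := by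
    by_contra h
    push Not at h
    apply hd
    unfold VT
    rw [h.1, h.2, zero_div, add_zero]
  rcases h0 with h0 | h0
  · by_cases h3 : p ∣ d
    · rw [vta_gcd hp h3] at h0
      obtain ⟨c, rfl⟩ := h3
      rw [Nat.mul_div_cancel_left c hp.pos] at h0
      obtain ⟨h4, h5, h6⟩ := hV c h0
      refine ⟨?_, Nat.mul_pos hp.pos h5, (Nat.mul_le_mul_left p h6).trans hB⟩
      intro l hl hlp
      rcases (Nat.Prime.dvd_mul hl).1 hlp with h7 | h7
      · rw [(Nat.prime_dvd_prime_iff_eq hl hp).1 h7]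
        exact hz
      · exact h4 l hl h7
    · rw [vta_gcd1 hp h3, Nat.div_one] at h0
      obtain ⟨h4, h5, h6⟩ := hV d h0
      exact ⟨h4, h5, h6.trans hBB⟩
  · obtain ⟨h4, h5, h6⟩ := hV _ h0
    refine ⟨fun l hl hld => h4 l hl (hld.mul_left p), ?_, ?_⟩
    · rw [Nat.one_le_iff_ne_zero]
      rintro rfl
      simp at h5
    · exact ((Nat.le_mul_of_pos_left d hp.pos).trans h6).trans hBB

theorem RVec_VZ_pr {z B B' : ℕ} {V : ℕ → ℝ} {P : Finset ℕ} (θ : ℕ → ℝ) (hV : RVec z B V)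
    (hP : ∀ p ∈ P, p.Prime ∧ z < p ∧ p * B ≤ B') : RVec z B' (VZ P θ V) := by
  intro d hd
  obtain ⟨p, hp, h1⟩ := Finset.exists_ne_zero_of_sum_ne_zero hd
  obtain ⟨h2, h3, h4⟩ := hP p hp
  refine RVec_VT_pr hV h2 h3 h4 d fun h => h1 ?_
  rw [h, mul_zero]

/-! ### the coefficients -/

theorem vta_xs_mono {z B B' r : ℕ} {V : ℕ → ℝ} (hV : RVec z B V) (hB : B ≤ B') (hr : 1 ≤ r) :
    xsV B V r = xsV B' V r := by
  unfold xsV
  refine Finset.sum_subset (Finset.Icc_subset_Icc le_rfl hB) ?_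
  intro m hm hm'
  rw [Finset.mem_Icc] at hm hm'
  have : V (r * m) = 0 := by
    by_contra h
    have h1 := (hV _ h).2.2
    have h2 : m ≤ r * m := Nat.le_mul_of_pos_left m hr
    exact hm' ⟨hm.1, h2.trans h1⟩
  rw [this, mul_zero]

theorem xV_mono_pr {z B B' : ℕ} {V a : ℕ → ℝ} (hV : RVec z B V) (hB : B ≤ B') (e : ℕ) :
    xV z B V a e = xV z B' V a e := by
  unfold xV
  split_ifs with h
  · rfl
  · rw [vta_xs_mono hV hB (SRO_rop_pos z e)]

theorem vta_xs_lin (B : ℕ) (V V' : ℕ → ℝ) (c c' : ℝ) (r : ℕ) :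
    xsV B (fun d => c * V d + c' * V' d) r = c * xsV B V r + c' * xsV B V' r := by
  unfold xsV
  rw [Finset.mul_sum, Finset.mul_sum, ← Finset.sum_add_distrib]
  refine Finset.sum_congr rfl fun m _ => ?_
  ring

theorem xV_lin_pr (z B : ℕ) (V V' a : ℕ → ℝ) (c c' : ℝ) (e : ℕ) :
    xV z B (fun d => c * V d + c' * V' d) a e = c * xV z B V a e + c' * xV z B V' a e := by
  unfold xV
  rw [vta_xs_lin]
  split_ifs
  · simp
  · ring

theorem vta_sum_lin {P : Finset ℕ} (z B : ℕ) (θ : ℕ → ℝ) (W : ℕ → ℕ → ℝ) (a : ℕ → ℝ) (e : ℕ) :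
    xV z B (fun d => ∑ p ∈ P, θ p * W p d) a e = ∑ p ∈ P, θ p * xV z B (W p) a e := by
  unfold xV xsV
  split_ifs
  · simp
  · have h1 : ∑ m ∈ Finset.Icc 1 B, mu m * ∑ p ∈ P, θ p * W p (rop z e * m) =
        ∑ p ∈ P, θ p * ∑ m ∈ Finset.Icc 1 B, mu m * W p (rop z e * m) := by
      simp_rw [Finset.mul_sum]
      rw [Finset.sum_comm]
      refine Finset.sum_congr rfl fun p _ => Finset.sum_congr rfl fun m _ => ?_
      ring
    rw [h1, Finset.mul_sum, Finset.mul_sum]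
    refine Finset.sum_congr rfl fun p _ => ?_
    ring

theorem vta_smp_mul {z e p : ℕ} (he : 1 ≤ e) (hp : p.Prime) (hz : z < p) :
    smp z (p * e) = smp z e ∧ rop z (p * e) = p * rop z e := by
  obtain ⟨q1, q2, q3, q4, q5⟩ := smp_rop_pr (z := z) he
  have h1 : p * e = smp z e * (p * rop z e) := by
    nth_rw 1 [← q1]
    ring
  have h2 : rough z (p * rop z e) := by
    intro l hl hlp
    rcases (Nat.Prime.dvd_mul hl).1 hlp with h7 | h7
    · rw [(Nat.prime_dvd_prime_iff_eq hl hp).1 h7]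
      exact hz
    · exact q4 l hl h7
  have h3 : 1 ≤ p * rop z e := Nat.mul_pos hp.pos q5
  have := smp_mul_pr q3 h2 h3
  rw [← h1] at this
  exact this

theorem vta_dvd_rop {z e p : ℕ} (he : 1 ≤ e) (hp : p.Prime) (hz : z < p) :
    p ∣ e ↔ p ∣ rop z e := by
  obtain ⟨q1, q2, q3, q4, q5⟩ := smp_rop_pr (z := z) he
  constructor
  · intro h
    rw [← q1] at h
    rcases (Nat.Prime.dvd_mul hp).1 h with h7 | h7
    · have := q3.2 p hp h7
      omega
    · exact h7
  · intro h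
    rw [← q1]
    exact h.mul_left _

theorem vta_mu_mul {p m : ℕ} (hp : p.Prime) (h : ¬ p ∣ m) : mu (p * m) = -mu m := by
  unfold mu
  have hc : Nat.Coprime p m := (Nat.Prime.coprime_iff_not_dvd hp).2 h
  rw [ArithmeticFunction.isMultiplicative_moebius.map_mul_of_coprime hc,
    ArithmeticFunction.moebius_apply_prime hp]
  push_cast
  ring

theorem vta_mu_sq {p m : ℕ} (hp : p.Prime) (h : p ∣ m) : mu (p * m) = 0 := by
  unfold mu
  have : ¬ Squarefree (p * m) := by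
    intro h1
    obtain ⟨c, rfl⟩ := h
    have h2 := h1 p ⟨c, by ring⟩
    exact hp.one_lt.ne' (Nat.isUnit_iff.1 h2)
  rw [ArithmeticFunction.moebius_eq_zero_of_not_squarefree this]
  simp

/-- the first sum is empty when `p` does not divide `r` -/
theorem vta_zero {z B B' p r : ℕ} {V : ℕ → ℝ} (hV : RVec z B V) (hp : p.Prime)
    (hB : p * B ≤ B') (hr : 1 ≤ r) (h : ¬ p ∣ r) :
    ∑ m ∈ Finset.Icc 1 B', mu m * V (r * m / Nat.gcd (r * m) p) = 0 := by
  have h1 : ∑ m ∈ Finset.Icc 1 B', mu m * V (r * m / Nat.gcd (r * m) p) =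
      ∑ m ∈ Finset.Icc 1 B', (if p ∣ m then mu m * V (r * (m / p)) else 0) +
      ∑ m ∈ Finset.Icc 1 B', (if ¬ p ∣ m then mu m * V (r * m) else 0) := by
    rw [← Finset.sum_add_distrib]
    refine Finset.sum_congr rfl fun m _ => ?_
    by_cases h2 : p ∣ m
    · rw [if_pos h2, if_neg (fun h => h h2), add_zero, vta_gcd hp (h2.mul_left r),
        Nat.mul_div_assoc _ h2]
    · have h3 : ¬ p ∣ r * m := by
        intro h4
        rcases (Nat.Prime.dvd_mul hp).1 h4 with h5 | h5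
        · exact h h5
        · exact h2 h5
      rw [if_neg h2, if_pos h2, zero_add, vta_gcd1 hp h3, Nat.div_one]
  have h2 : ∑ m ∈ Finset.Icc 1 B', (if p ∣ m then mu m * V (r * (m / p)) else 0) =
      ∑ m ∈ Finset.Icc 1 B', (if ¬ p ∣ m then -(mu m * V (r * m)) else 0) := by
    symm
    refine Finset.sum_bij_ne_zero (fun m _ _ => p * m) ?_ ?_ ?_ ?_
    · intro m hm h0
      rw [Finset.mem_Icc] at hm ⊢
      have h3 : V (r * m) ≠ 0 := by
        intro h4
        rw [h4] at h0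
        simp at h0
      have h5 := (hV _ h3).2.2
      have h6 : m ≤ r * m := Nat.le_mul_of_pos_left m hr
      exact ⟨Nat.mul_pos hp.pos hm.1, (Nat.mul_le_mul_left p (h6.trans h5)).trans hB⟩
    · intro d _ _ d' _ _ h
      exact Nat.eq_of_mul_eq_mul_left hp.pos h
    · intro m hm h0
      have hd : p ∣ m := by
        by_contra h
        rw [if_neg h] at h0
        exact h0 rfl
      rw [if_pos hd] at h0
      obtain ⟨c, rfl⟩ := hd
      rw [Nat.mul_div_cancel_left c hp.pos] at h0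
      have hc : ¬ p ∣ c := by
        intro hc
        rw [vta_mu_sq hp hc, zero_mul] at h0
        exact h0 rfl
      rw [Finset.mem_Icc] at hm
      have hc1 : 1 ≤ c := by
        rw [Nat.one_le_iff_ne_zero]
        rintro rfl
        omega
      refine ⟨c, ?_, ?_, rfl⟩
      · rw [Finset.mem_Icc]
        exact ⟨hc1, (Nat.le_mul_of_pos_left c hp.pos).trans hm.2⟩
      · rw [if_pos hc]
        rw [vta_mu_mul hp hc] at h0
        intro h4
        apply h0
        linarith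
    · intro m hm h0
      have hc : ¬ p ∣ m := by
        intro h4
        rw [if_neg (fun h5 => h5 h4)] at h0
        exact h0 rfl
      rw [if_pos hc, if_pos (Dvd.intro _ rfl), Nat.mul_div_cancel_left m hp.pos,
        vta_mu_mul hp hc]
      ring
  rw [h1, h2, ← Finset.sum_add_distrib]
  refine Finset.sum_eq_zero fun m _ => ?_
  split_ifs
  · ring
  · ring

theorem vta_xs_VT {z B B' p r : ℕ} {V : ℕ → ℝ} (hV : RVec z B V) (hp : p.Prime)
    (hB : p * B ≤ B') (hr : 1 ≤ r) :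
    (r : ℝ) * xsV B' (VT p V) r =
      (if p ∣ r then ((r / p : ℕ) : ℝ) * xsV B V (r / p) else 0) + (r : ℝ) * xsV B V (p * r) := by
  have hBB : B ≤ B' := (Nat.le_mul_of_pos_left B hp.pos).trans hB
  have hp0 : (p : ℝ) ≠ 0 := by exact_mod_cast hp.ne_zero
  have h1 : xsV B' (VT p V) r =
      (∑ m ∈ Finset.Icc 1 B', mu m * V (r * m / Nat.gcd (r * m) p)) / p + xsV B' V (p * r) := by
    unfold xsV VT
    rw [Finset.sum_div, ← Finset.sum_add_distrib]
    refine Finset.sum_congr rfl fun m _ => ?_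
    rw [show p * (r * m) = p * r * m by ring]
    ring
  rw [h1, ← vta_xs_mono hV hBB (Nat.mul_pos hp.pos hr)]
  split_ifs with h
  · obtain ⟨c, rfl⟩ := h
    have hc : 1 ≤ c := by
      rw [Nat.one_le_iff_ne_zero]
      rintro rfl
      omega
    rw [Nat.mul_div_cancel_left c hp.pos, vta_xs_mono hV hBB hc]
    have h2 : ∑ m ∈ Finset.Icc 1 B', mu m * V (p * c * m / Nat.gcd (p * c * m) p) =
        xsV B' V c := by
      unfold xsV
      refine Finset.sum_congr rfl fun m _ => ?_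
      rw [vta_gcd hp (by rw [mul_assoc]; exact Dvd.intro _ rfl), mul_assoc,
        Nat.mul_div_cancel_left _ hp.pos]
    rw [h2]
    push_cast
    field_simp
  · rw [vta_zero hV hp hB hr h, zero_div, zero_add, zero_add]

/-- `Tp` in the coordinates `V` -/
theorem Tp_xV_pr {z B B' p : ℕ} {V a : ℕ → ℝ} (hV : RVec z B V) (hp : p.Prime) (hz : z < p)
    (hB : p * B ≤ B') (e : ℕ) : Tp p (xV z B V a) e = xV z B' (VT p V) a e := by
  have hp0 : (p : ℝ) ≠ 0 := by exact_mod_cast hp.ne_zero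
  rcases Nat.eq_zero_or_pos e with rfl | he
  · unfold Tp xV
    simp
  · obtain ⟨h1, h2⟩ := vta_smp_mul (z := z) he hp hz
    have h3 := vta_xs_VT (r := rop z e) hV hp hB (SRO_rop_pos z e)
    have e1 : xV z B' (VT p V) a e = a (smp z e) * Real.sqrt (smp z e) *
        ((if p ∣ rop z e then ((rop z e / p : ℕ) : ℝ) * xsV B V (rop z e / p) else 0) +
          (rop z e : ℝ) * xsV B V (p * rop z e)) := by
      unfold xV
      rw [if_neg (by omega), h3]
    have e2 : xV z B V a (p * e) / p = a (smp z e) * Real.sqrt (smp z e) *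
        ((rop z e : ℝ) * xsV B V (p * rop z e)) := by
      unfold xV
      rw [if_neg (Nat.mul_pos hp.pos he).ne', h1, h2]
      push_cast
      field_simp
    rw [e1]
    unfold Tp
    rw [e2]
    by_cases h4 : p ∣ e
    · rw [if_pos h4, if_pos ((vta_dvd_rop he hp hz).1 h4)]
      obtain ⟨c, rfl⟩ := h4
      have hc : 1 ≤ c := by
        rw [Nat.one_le_iff_ne_zero]
        rintro rfl
        simp at he
      obtain ⟨h5, h6⟩ := vta_smp_mul (z := z) hc hp hz
      rw [Nat.mul_div_cancel_left c hp.pos, h5, h6, Nat.mul_div_cancel_left _ hp.pos]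
      have e3 : xV z B V a c = a (smp z c) * Real.sqrt (smp z c) *
          ((rop z c : ℝ) * xsV B V (rop z c)) := by
        unfold xV
        rw [if_neg (by omega)]
      rw [e3]
      ring
    · rw [if_neg h4, if_neg (fun h => h4 ((vta_dvd_rop he hp hz).2 h))]
      ring

theorem xV_YT_pr {z B B' : ℕ} {V a : ℕ → ℝ} {P : Finset ℕ} (θ : ℕ → ℝ) (hV : RVec z B V)
    (hP : ∀ p ∈ P, p.Prime ∧ z < p ∧ p * B ≤ B') (e : ℕ) :
    YT P θ (xV z B V a) e = xV z B' (VZ P θ V) a e := by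
  have h1 : xV z B' (VZ P θ V) a e = ∑ p ∈ P, θ p * xV z B' (VT p V) a e :=
    vta_sum_lin z B' θ (fun p => VT p V) a e
  rw [h1]
  unfold YT
  refine Finset.sum_congr rfl fun p hp => ?_
  obtain ⟨h2, h3, h4⟩ := hP p hp
  rw [Tp_xV_pr hV h2 h3 h4]

end Pool.Agent.LSP
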